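import Mathlib

/-!
# The supercongruence of the problem file fails at `p = 31`
-/

namespace Pool.Agent.Results.MP_34a732_nt.PrimeThirtyOne

/-- `binom(a, k) = a (a - 1) ⋯ (a - k + 1) / k!` for rational `a`. -/
def binom (a : ℚ) : ℕ → ℚ
  | 0 => 1
  | k + 1 => binom a k * (a - k) / (k + 1)

/-- The partial sum `∑_{k < n} binom(a, k) binom(b, k) (27/16)^k`. -/
def S (a b : ℚ) : ℕ → ℚ
  | 0 => 0
  | n + 1 => S a b n + binom a n * binom b n * (27 / 16) ^ n

def S1 (p : ℕ) : ℚ := S (-1 / 3) (-1 / 6) p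

def S2 (p : ℕ) : ℚ := S (-2 / 3) (-5 / 6) p

/-- Congruence modulo `p ^ 2` in the ring of rationals with denominator prime to `p`. -/
def Cong (p : ℕ) (u v : ℚ) : Prop :=
  ∃ w : ℚ, ¬ p ∣ w.den ∧ u - v = (p : ℚ) ^ 2 * w

/-- The Legendre symbol of the residue modulo `p` of a rational `a` with denominator prime to `p`
(`a = num / den` and `num * den` have the same quadratic character). -/
noncomputable def leg (p : ℕ) [Fact p.Prime] (a : ℚ) : ℚ :=
  (legendreSym p (a.num * a.den) : ℤ)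

instance : Fact (Nat.Prime 11) := ⟨by norm_num⟩
instance : Fact (Nat.Prime 31) := ⟨by norm_num⟩

/-- The displayed congruences of Q1. -/
def Question : Prop :=
  ∀ (p : ℕ) [Fact p.Prime], 11 < p → legendreSym 11 p = 1 → ∀ x y : ℤ, 4 * (p : ℤ) = x ^ 2 + 11 * y ^ 2 →
    Cong p (S1 p) (if p % 3 = 1 then S2 p else -11 / 16 * S2 p) ∧
    Cong p (S1 p) (if p % 3 = 1 then
        -leg p (-11 + (x : ℚ) / y) * (legendreSym 11 x : ℤ) * (x - p / x)
      else
        -(1 / 4) * leg p (-11 + (legendreSym 11 x : ℤ) * (x : ℚ) / y) * (11 * y - p / y))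

theorem leg11 : legendreSym 11 5 = 1 := by
  rw [legendreSym.eq_one_iff 11 (by decide)]
  exact ⟨4, by decide⟩

theorem leg11' : legendreSym 11 ((31 : ℕ) : ℤ) = 1 := by
  rw [legendreSym.eq_one_iff 11 (by decide)]
  exact ⟨3, by decide⟩

theorem leg31 : leg 31 (-11 + ((5 : ℤ) : ℚ) / (3 : ℤ)) = 1 := by
  have h1 : (-11 + ((5 : ℤ) : ℚ) / (3 : ℤ)).num = -28 := by decide +kernel
  have h2 : (-11 + ((5 : ℤ) : ℚ) / (3 : ℤ)).den = 3 := by decide +kernel
  unfold leg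
  rw [h1, h2]
  have : legendreSym 31 ((-28) * ((3 : ℕ) : ℤ)) = 1 := by
    rw [legendreSym.eq_one_iff 31 (by decide)]
    exact ⟨3, by decide⟩
  rw [this]; norm_num

theorem compute : 31 ∣ ((S1 31 - 6 / 5) / 961).den := by
  decide +kernel

theorem fails : ¬ Cong 31 (S1 31) (6 / 5) := by
  rintro ⟨w, hw, h⟩
  apply hw
  have : w = (S1 31 - 6 / 5) / 961 := by
    rw [h]; norm_num
  rw [this]
  exact compute

/-- **Q1 (as displayed in the problem file) fails** at `p = 31`, `(x, y) = (5, 3)`: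
`4 * 31 = 5 ^ 2 + 11 * 3 ^ 2`, the right-hand side is `-(5 - 31 / 5) = 6 / 5`, and
`S1 31` is not congruent to `6 / 5` modulo `31 ^ 2`. -/
theorem result : ¬ Question ∧
    ¬ Cong 31 (S1 31)
      (-leg 31 (-11 + ((5 : ℤ) : ℚ) / (3 : ℤ)) * (legendreSym 11 5 : ℤ) * (((5 : ℤ) : ℚ) - 31 / (5 : ℤ))) := by
  have key : ¬ Cong 31 (S1 31)
      (-leg 31 (-11 + ((5 : ℤ) : ℚ) / (3 : ℤ)) * (legendreSym 11 5 : ℤ) *
        (((5 : ℤ) : ℚ) - 31 / (5 : ℤ))) := by
    rw [leg31, leg11]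
    have : (-1 * ((1 : ℤ) : ℚ) * (((5 : ℤ) : ℚ) - 31 / (5 : ℤ))) = 6 / 5 := by norm_num
    rw [this]
    exact fails
  refine ⟨fun H => key ?_, key⟩
  have h := (H 31 (by norm_num) leg11' 5 3 (by norm_num)).2
  rw [if_pos (by norm_num)] at h
  exact_mod_cast h

end Pool.Agent.Results.MP_34a732_nt.PrimeThirtyOne
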